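import Pool.Agent.W672.CB.Shift

set_option autoImplicit false

open Topology Set

namespace Pool.Agent.Results.MP_2aae10_lc.UniversalInstance

/-- `A` is completely Baire: every closed subspace of `A` is a Baire space. -/
def CompletelyBaire {Y : Type*} [TopologicalSpace Y] (A : Set Y) : Prop :=
  ∀ C : Set A, IsClosed C → BaireSpace C

/-- The space `X` has the free set property: for every sequence of meagre relations on `X` of
arities at least `2` there is a dense completely Baire set `A` such that no tuple of distinct
points of `A` lies in any of the relations. -/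
def FreeSets (X : Type) [TopologicalSpace X] : Prop :=
  ∀ (n : ℕ → ℕ) (R : ∀ k : ℕ, Set (Fin (n k) → X)), (∀ k, 2 ≤ n k) → (∀ k, IsMeagre (R k)) →
    ∃ A : Set X, Dense A ∧ CompletelyBaire A ∧
      ∀ (k : ℕ) (f : Fin (n k) → X), Function.Injective f → (∀ i, f i ∈ A) → f ∉ R k

/-- Subsets of `ℕ` are coded by points of the Cantor space `ℕ → Bool`. The family `A` is centered
if every finite subfamily has infinite intersection. -/
def Centered (A : Set (ℕ → Bool)) : Prop :=
  ∀ F : Finset (ℕ → Bool), (∀ a ∈ F, a ∈ A) → {m | ∀ a ∈ F, a m = true}.Infinite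

/-- The family `A` is independent if all Boolean combinations of finitely many distinct members
are infinite. -/
def Independent (A : Set (ℕ → Bool)) : Prop :=
  ∀ F : Finset (ℕ → Bool), (∀ a ∈ F, a ∈ A) → ∀ σ : (ℕ → Bool) → Bool,
    {m | ∀ a ∈ F, a m = σ a}.Infinite

theorem all_arities (A : Set (ℕ → Bool)) (hAd : Dense A) (hAB : CompletelyBaire A)
    (hAc : Centered A) (X : Type) [TopologicalSpace X] [PolishSpace X] [PerfectSpace X]
    (n : ℕ → ℕ) (R : ∀ k : ℕ, Set (Fin (n k) → X)) (hR : ∀ k, IsMeagre (R k)) :
    ∃ A : Set X, Dense A ∧ CompletelyBaire A ∧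
      ∀ (k : ℕ) (f : Fin (n k) → X), Function.Injective f → (∀ i, f i ∈ A) → f ∉ R k := by
  classical
  rcases isEmpty_or_nonempty X with hX | hX
  · by_cases hk : ∃ k, n k = 0 ∧ (R k).Nonempty
    · exfalso
      obtain ⟨k, hk0, hne⟩ := hk
      have : IsEmpty (Fin (n k)) := by rw [hk0]; infer_instance
      obtain ⟨f, hf⟩ := hne
      have huniv : R k = univ := by
        ext g
        constructor
        · intro _; trivial
        · intro _
          have : g = f := Subsingleton.elim _ _
          rw [this]; exact hf
      have h1 := hR k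
      rw [huniv, IsMeagre, compl_univ, mem_residual_iff] at h1
      obtain ⟨S, ho, hd, hc, hs⟩ := h1
      have : f ∈ ⋂₀ S := by
        intro t ht
        obtain ⟨g, hg⟩ := (hd t ht).nonempty
        have : f = g := Subsingleton.elim _ _
        rw [this]; exact hg
      exact hs this
    · refine ⟨∅, ?_, ?_, ?_⟩
      · intro x; exact (hX.false x).elim
      · intro C _
        have : IsEmpty C := ⟨fun c => hX.false c.1.1⟩
        infer_instance
      · intro k f hf hA hfR
        by_cases hn : n k = 0
        · exact hk ⟨k, hn, ⟨f, hfR⟩⟩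
        · exact (hX.false (f ⟨0, Nat.pos_of_ne_zero hn⟩)).elim
  · exact Pool.Agent.W672.CB.free_of_centered A hAd hAB hAc X n R hR

/-- The following are equivalent: (1) the statement asked in the problem (for arities at least
`2`); (2) the same for relations of arbitrary arities; (3) the statement for one single nonempty
crowded Polish space; (4) the statement for the space `ℝ`; (5) there is a dense completely Baire
independent family of subsets of `ℕ`; (6) there is a dense completely Baire centered family;
(7) there is a non-meagre completely Baire centered family; (8) there is a completely Baire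
centered family that is somewhere dense. -/
theorem result : List.TFAE
    [∀ (X : Type) [TopologicalSpace X] [PolishSpace X] [PerfectSpace X], FreeSets X,
     ∀ (X : Type) [TopologicalSpace X] [PolishSpace X] [PerfectSpace X]
       (n : ℕ → ℕ) (R : ∀ k : ℕ, Set (Fin (n k) → X)), (∀ k, IsMeagre (R k)) →
       ∃ A : Set X, Dense A ∧ CompletelyBaire A ∧
        ∀ (k : ℕ) (f : Fin (n k) → X), Function.Injective f → (∀ i, f i ∈ A) → f ∉ R k,
     ∃ (X : Type) (_ : TopologicalSpace X) (_ : PolishSpace X) (_ : PerfectSpace X)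
       (_ : Nonempty X), FreeSets X,
     FreeSets ℝ,
     ∃ A : Set (ℕ → Bool), Dense A ∧ CompletelyBaire A ∧ Independent A,
     ∃ A : Set (ℕ → Bool), Dense A ∧ CompletelyBaire A ∧ Centered A,
     ∃ A : Set (ℕ → Bool), ¬ IsMeagre A ∧ CompletelyBaire A ∧ Centered A,
     ∃ A : Set (ℕ → Bool), (interior (closure A)).Nonempty ∧ CompletelyBaire A ∧ Centered A] := by
  tfae_have 2 → 1 := by
    intro h X _ _ _ n R _ hR
    exact h X n R hR
  tfae_have 1 → 4 := fun h => h ℝ
  tfae_have 4 → 3 := fun h => ⟨ℝ, inferInstance, inferInstance, inferInstance, inferInstance, h⟩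
  tfae_have 3 → 5 := by
    rintro ⟨X, i1, i2, i3, i4, h⟩
    exact Pool.Agent.W672.CB.independent_of_free X h
  tfae_have 5 → 6 := by
    rintro ⟨A, h1, h2, h3⟩
    exact ⟨A, h1, h2, fun F hF => h3 F hF (fun _ => true)⟩
  tfae_have 6 → 7 := by
    rintro ⟨A, h1, h2, h3⟩
    exact ⟨A, Pool.Agent.W672.CB.not_meagre_of_dense A h1 h2, h2, h3⟩
  tfae_have 7 → 8 := by
    rintro ⟨A, h1, h2, h3⟩
    refine ⟨A, ?_, h2, h3⟩
    rw [nonempty_iff_ne_empty]
    intro h
    have h4 : IsNowhereDense A := h
    exact h1 h4.isMeagre
  tfae_have 8 → 6 := by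
    rintro ⟨A, h1, h2, h3⟩
    exact Pool.Agent.W672.CB.dense_of_somewhere_dense A h1 h2 h3
  tfae_have 6 → 2 := by
    rintro ⟨A, h1, h2, h3⟩ X _ _ _ n R hR
    exact all_arities A h1 h2 h3 X n R hR
  tfae_finish

end Pool.Agent.Results.MP_2aae10_lc.UniversalInstance
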